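import Mathlib
import Pool.Agent.U753.MK.Stm

/-!
# Project MK, package TO: the free energy on the torus
-/

set_option autoImplicit false

open scoped BigOperators Matrix ComplexOrder
open scoped Matrix.Norms.L2Operator

noncomputable section

namespace Pool.Agent.U603.MK

open Pool.Agent.TH235.PP (BoxOp TorOp Site term ham sh)
open Pool.Agent.U753.MK

lemma term_sub {d R L : ℕ} (X Y : BoxOp d R) (u : Site L) :
    term (X - Y) u = term X u - term Y u := by
  classical
  ext s t
  simp only [term, Matrix.sub_apply]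
  split_ifs <;> simp

lemma term_add {d R L : ℕ} (X Y : BoxOp d R) (u : Site L) :
    term (X + Y) u = term X u + term Y u := by
  classical
  ext s t
  simp only [term, Matrix.add_apply]
  split_ifs <;> simp

lemma term_smul {d R L : ℕ} (c : ℂ) (X : BoxOp d R) (u : Site L) :
    term (c • X) u = c • term X u := by
  classical
  ext s t
  simp only [term, Matrix.smul_apply]
  split_ifs <;> simp

lemma term_herm {d R L : ℕ} (X : BoxOp d R) (u : Site L) (hX : X.IsHermitian) :
    (term X u).IsHermitian := by
  classical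
  ext s t
  simp only [term, Matrix.conjTranspose_apply]
  have hiff : (∀ v, (∀ x : Fin R × Fin R, sh u x ≠ v) → t v = s v) ↔
      (∀ v, (∀ x : Fin R × Fin R, sh u x ≠ v) → s v = t v) :=
    ⟨fun h v hv => (h v hv).symm, fun h v hv => (h v hv).symm⟩
  by_cases hc : ∀ v, (∀ x : Fin R × Fin R, sh u x ≠ v) → s v = t v
  · rw [if_pos hc, if_pos (hiff.2 hc)]
    exact hX.apply _ _
  · rw [if_neg hc, if_neg (fun h => hc (hiff.1 h)), star_zero]

/-- The translation `v ↦ v - x`. -/
def back {b m : ℕ} (x : Fin b × Fin b) : Site m ≃ Site m where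
  toFun v := (v.1 - ((x.1 : ℕ) : ZMod m), v.2 - ((x.2 : ℕ) : ZMod m))
  invFun u := sh u x
  left_inv v := by simp [sh]
  right_inv u := by simp [sh]

lemma sh_back {b m : ℕ} (x : Fin b × Fin b) (v : Site m) : sh (back x v) x = v := by
  simp [sh, back]

lemma val_add_nat {m : ℕ} [NeZero m] (a : ZMod m) (k : ℕ) (h : a.val + k < m) :
    (a + (k : ZMod m)).val = a.val + k := by
  have hk : k < m := lt_of_le_of_lt (Nat.le_add_left _ _) h
  have h2 : ((k : ZMod m)).val = k := ZMod.val_natCast_of_lt hk
  rw [ZMod.val_add_of_lt, h2]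
  rw [h2]; exact h

/-- Lexicographic position. -/
def pos {m : ℕ} (v : Site m) : ℕ := v.1.val * m + v.2.val

lemma pos_inj {m : ℕ} [NeZero m] : Function.Injective (pos (m := m)) := by
  intro v w h
  unfold pos at h
  have hv := ZMod.val_lt v.2
  have hw := ZMod.val_lt w.2
  have h1 : v.1.val = w.1.val := by
    have e1 : (v.1.val * m + v.2.val) / m = v.1.val := by
      rw [mul_comm, Nat.mul_add_div (NeZero.pos m), Nat.div_eq_of_lt hv, add_zero]
    have e2 : (w.1.val * m + w.2.val) / m = w.1.val := by
      rw [mul_comm, Nat.mul_add_div (NeZero.pos m), Nat.div_eq_of_lt hw, add_zero]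
    rw [← e1, ← e2, h]
  have h2 : v.2.val = w.2.val := by
    rw [h1] at h; exact Nat.add_left_cancel h
  exact Prod.ext (ZMod.val_injective m h1) (ZMod.val_injective m h2)

/-- The positions without wrap around. -/
def good {b : ℕ} (m : ℕ) [NeZero m] (x : Fin b × Fin b) : Finset (Site m) :=
  Finset.univ.filter fun v => (back x v).1.val + b ≤ m ∧ (back x v).2.val + b ≤ m

lemma card_big {m : ℕ} [NeZero m] (b : ℕ) :
    (Finset.univ.filter fun a : ZMod m => m < a.val + b).card ≤ b := by
  classical
  have h : (Finset.univ.filter fun a : ZMod m => m < a.val + b).card ≤ (Finset.Ico (m - b) m).card := by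
    apply Finset.card_le_card_of_injOn (fun a => a.val)
    · intro a ha
      simp only [Finset.coe_filter, Finset.mem_univ, true_and, Set.mem_ofPred_eq] at ha
      simp only [Finset.coe_Ico, Set.mem_Ico]
      exact ⟨by omega, ZMod.val_lt a⟩
    · intro a _ c _ hac
      exact ZMod.val_injective m hac
  refine h.trans ?_
  rw [Nat.card_Ico]; omega

lemma card_bad {b m : ℕ} [NeZero m] (x : Fin b × Fin b) :
    (Finset.univ \ good m x).card ≤ 2 * b * m := by
  classical
  set S : Finset (ZMod m) := Finset.univ.filter fun a : ZMod m => m < a.val + b with hS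
  have h : (Finset.univ \ good m x) ⊆
      ((S ×ˢ (Finset.univ : Finset (ZMod m))) ∪ ((Finset.univ : Finset (ZMod m)) ×ˢ S)).map
        (back (m := m) x).symm.toEmbedding := by
    intro v hv
    rw [Finset.mem_sdiff] at hv
    have hv2 := hv.2
    simp only [good, Finset.mem_filter, Finset.mem_univ, true_and, not_and_or, not_le] at hv2
    rw [Finset.mem_map_equiv, Equiv.symm_symm, Finset.mem_union, Finset.mem_product,
      Finset.mem_product]
    rcases hv2 with h1 | h1
    · left; exact ⟨by rw [hS, Finset.mem_filter]; exact ⟨Finset.mem_univ _, h1⟩, Finset.mem_univ _⟩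
    · right; exact ⟨Finset.mem_univ _, by rw [hS, Finset.mem_filter]; exact ⟨Finset.mem_univ _, h1⟩⟩
  have h2 := Finset.card_le_card h
  rw [Finset.card_map] at h2
  refine h2.trans ((Finset.card_union_le _ _).trans ?_)
  rw [Finset.card_product, Finset.card_product]
  have hc : (Finset.univ : Finset (ZMod m)).card = m := by
    rw [Finset.card_univ, ZMod.card]
  rw [hc]
  have := card_big (m := m) b
  rw [← hS] at this
  nlinarith

lemma ham_eq {d b : ℕ} (X : BoxOp d b) (m : ℕ) [NeZero m] (x : Fin b × Fin b) :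
    ham X m = ∑ v : Site m, term X (back x v) := by
  unfold ham
  exact (Equiv.sum_comp (back (m := m) x) (fun u => term X u)).symm

lemma exp_scalar {n : Type} [Fintype n] [DecidableEq n] (c : ℂ) :
    NormedSpace.exp (c • (1 : Matrix n n ℂ)) = (Complex.exp c) • (1 : Matrix n n ℂ) := by
  have h1 : c • (1 : Matrix n n ℂ) = Matrix.diagonal (fun _ => c) := by
    rw [Matrix.smul_one_eq_diagonal]
  rw [h1, Matrix.exp_diagonal, Matrix.smul_one_eq_diagonal]
  congr 1
  funext i
  rw [Pi.coe_exp, Complex.exp_eq_exp_ℂ]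

lemma exp_shift {n : Type} [Fintype n] [DecidableEq n] (A : Matrix n n ℂ) (c : ℝ) :
    (NormedSpace.exp (A + (c : ℂ) • (1 : Matrix n n ℂ))).trace.re =
      Real.exp c * (NormedSpace.exp A).trace.re := by
  rw [Matrix.exp_add_of_commute _ _ ((Commute.one_right A).smul_right (c : ℂ)), exp_scalar,
    Matrix.mul_smul, Matrix.mul_one, Matrix.trace_smul, smul_eq_mul, ← Complex.ofReal_exp,
    Complex.re_ofReal_mul]

theorem t_tor (hce : StmCexp) (hch : StmChain) (hte : StmTerm) : StmTor := by
  intro d b m _ hd hb hbm x ρ hρ Y Z hY hZ hYe hZe J hJ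
  have hd0 : 0 < d := by omega
  have hJ0 : 0 ≤ J := (norm_nonneg _).trans hJ
  obtain ⟨hCE, hCC, -, -, -⟩ := hce (Fin b × Fin b) d hd0
  set h : Site m → TorOp d m := fun v => term (Z - Y) (back x v) with hh
  have hchain := hch (Site m) d hd0 pos pos_inj h (good m x) J hJ0
    (fun v => term_herm _ _ (hZ.sub hY)) ?_ ?_
  · -- conclusion
    have hone : ∀ u : Site m, term (1 : BoxOp d b) u = 1 := fun u => (hte d b m hd0 hbm u).2.1
    have hcard : (Fintype.card (Site m) : ℝ) = (m : ℝ) * m := by
      rw [Fintype.card_prod, ZMod.card]; push_cast; ring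
    have hham : -ham (Z - Y + ((Real.log d : ℝ) : ℂ) • (1 : BoxOp d b)) m =
        -∑ v, h v + ((-((m : ℝ) * m * Real.log d) : ℝ) : ℂ) • (1 : TorOp d m) := by
      rw [ham_eq _ m x]
      simp only [term_add, term_smul, hone]
      rw [Finset.sum_add_distrib, Finset.sum_const, Finset.card_univ, neg_add, ← hcard]
      congr 1
      rw [← Nat.cast_smul_eq_nsmul ℂ, smul_smul, ← neg_smul]
      congr 1
      push_cast
      ring
    rw [hham, exp_shift]
    set T := (NormedSpace.exp (-∑ v, h v)).trace.re with hT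
    have hbad : ((Finset.univ \ good m x).card : ℝ) ≤ 2 * b * m := by
      exact_mod_cast card_bad (b := b) (m := m) x
    by_cases hT0 : T = 0
    · rw [hT0, mul_zero, Real.log_zero]; positivity
    · rw [Real.log_mul (Real.exp_ne_zero _) hT0, Real.log_exp]
      rw [hcard] at hchain
      have := mul_le_mul_of_nonneg_right hbad hJ0
      linarith
  · intro v hv
    simp only [good, Finset.mem_filter, Finset.mem_univ, true_and] at hv
    set u : Site m := back x v with hu
    have hvu : sh u x = v := sh_back x v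
    obtain ⟨-, -, -, hexp, -, hcx⟩ := hte d b m hd0 hbm u
    have hval1 : ∀ k : Fin b, (u.1 + ((k : ℕ) : ZMod m)).val = u.1.val + k := fun k =>
      val_add_nat _ _ (lt_of_lt_of_le (Nat.add_lt_add_left k.2 _) hv.1)
    have hval2 : ∀ k : Fin b, (u.2 + ((k : ℕ) : ZMod m)).val = u.2.val + k := fun k =>
      val_add_nat _ _ (lt_of_lt_of_le (Nat.add_lt_add_left k.2 _) hv.2)
    have hposu : ∀ y : Fin b × Fin b, pos (sh u y) = (u.1.val + y.1) * m + (u.2.val + y.2) := by
      intro y
      unfold pos sh
      rw [hval1, hval2]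
    refine ⟨(seg x).image (sh u), term Y u, term Z u, ?_, term_herm _ _ hY, term_herm _ _ hZ,
      ?_, ?_, ?_⟩
    · intro w hw
      rw [Finset.mem_image] at hw
      obtain ⟨y, hy, rfl⟩ := hw
      rw [← hvu, hposu, hposu]
      simp only [seg, Finset.mem_filter, Finset.mem_univ, true_and] at hy
      have hy2 : u.2.val + (y.2 : ℕ) < m := lt_of_lt_of_le (Nat.add_lt_add_left y.2.2 _) hv.2
      rcases hy with hy | ⟨hy1, hy2'⟩
      · have : (y.1 : ℕ) + 1 ≤ x.1 := hy
        nlinarith
      · rw [hy1]
        have : (y.2 : ℕ) < x.2 := hy2'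
        omega
    · rw [hexp, hYe]
      have hi : insert v ((seg x).image (sh u)) = (insert x (seg x)).image (sh u) := by
        rw [Finset.image_insert, hvu]
      rw [hi, hcx, hCC, Finset.inter_self]
    · rw [hexp, hexp, hcx, hYe, hZe, hCC,
        Finset.inter_eq_left.2 (Finset.subset_insert x (seg x))]
    · exact term_sub Z Y u
  · intro v _
    exact ((hte d b m hd0 hbm (back x v)).2.2.1 (Z - Y)).trans hJ

end Pool.Agent.U603.MK
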